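import Mathlib.CategoryTheory.Monoidal.Preadditive
import Mathlib.CategoryTheory.Preadditive.Biproducts

/-!
# The category of separable nuclear C*-algebras with morphisms `KK(A, B)`: formal properties
-/

namespace Pool.Agent.TH118.UCT

open CategoryTheory Limits MonoidalCategory

universe w v u

variable {C : Type u} [Category.{v} C] [Preadditive C] [MonoidalCategory C]

/-- The tensor powers: `pow A 0` is the unit object (the complex numbers) and
`pow A (n + 1) = pow A n ⊗ A`. -/
def pow (A : C) : ℕ → C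
  | 0 => 𝟙_ C
  | n + 1 => pow A n ⊗ A

/-- The morphism `x ↦ x ⊗ 1` of the `n`-th to the `(n + 1)`-th tensor power of `B`, for a morphism
`e : 𝟙_ C ⟶ B` (the unit of `B`). -/
def step {B : C} (e : 𝟙_ C ⟶ B) (n : ℕ) : pow B n ⟶ pow B (n + 1) :=
  (ρ_ (pow B n)).inv ≫ (pow B n ◁ e)

variable (C)

set_option linter.dupNamespace false in
/-- The formal properties of the category `C` of separable nuclear C*-algebras with the groups
`KK(A, B)` as morphisms that are used.  The sum is `⊞` and the tensor product `⊗`. -/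
structure KKTheory [HasBinaryBiproducts C] where
  /-- `A` satisfies the UCT -/
  UCT : C → Prop
  /-- `K_*(A) = 0` -/
  KZero : C → Prop
  /-- the UCT holds for the complex numbers and for the algebras with `KK(A, A) = 0` -/
  uct_unit : UCT (𝟙_ C)
  uct_zero : ∀ A : C, 𝟙 A = 0 → UCT A
  /-- the UCT passes to direct summands -/
  uct_retract : ∀ {A B : C} (i : A ⟶ B) (r : B ⟶ A), i ≫ r = 𝟙 A → UCT B → UCT A
  /-- the UCT for `A` with `K_*(A) = 0` gives `KK(A, A) = 0` -/
  eq_zero : ∀ A : C, KZero A → UCT A → 𝟙 A = 0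
  /-- the UCT for all `A` follows from the UCT for all `A` with `K_*(A) = 0` -/
  reduction : (∀ A : C, KZero A → UCT A) → ∀ A : C, UCT A
  /-- the direct sum `S` of countably many copies of `A`; additivity of `KK` -/
  exists_sum : ∀ A : C, ∃ (S : C) (ι : ℕ → (A ⟶ S)), (KZero A → KZero S) ∧
    ∀ (D : C) (f : ℕ → (A ⟶ D)), ∃! g : S ⟶ D, ∀ n, ι n ≫ g = f n
  /-- the unital separable nuclear C*-algebras, with the classes of their units -/
  Unital : Type w
  obj : Unital → C
  one : ∀ B : Unital, 𝟙_ C ⟶ obj B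
  /-- `B` is a Kirchberg algebra (simple and purely infinite) -/
  Kirchberg : Unital → Prop
  /-- `B` is isomorphic to `B ⊗ B` -/
  SelfAbsorbing : Unital → Prop
  /-- the infinite tensor power of a unital algebra -/
  infPow : Unital → Unital
  kirchberg_infPow : ∀ B : Unital, Kirchberg B → Kirchberg (infPow B)
  selfAbsorbing_infPow : ∀ B : Unital, SelfAbsorbing (infPow B)
  /-- the inclusions of the finite tensor powers -/
  ι : ∀ (B : Unital) (n : ℕ), pow (obj B) n ⟶ obj (infPow B)
  ι_step : ∀ (B : Unital) (n : ℕ), step (one B) n ≫ ι B (n + 1) = ι B n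
  /-- surjectivity in Milnor's sequence for the inductive limit `infPow B` -/
  milnor : ∀ (B : Unital) (D : C) (f : ∀ n, pow (obj B) n ⟶ D),
    (∀ n, step (one B) n ≫ f (n + 1) = f n) → ∃ g : obj (infPow B) ⟶ D, ∀ n, ι B n ≫ g = f n
  /-- `A ⊕ ℂ` is KK-equivalent to a unital Kirchberg algebra, with the unit `1` of `ℂ` corresponding
  to the unit (Kirchberg) -/
  exists_kirchberg : ∀ A : C, ∃ B : Unital, Kirchberg B ∧
    ∃ e : obj B ≅ A ⊞ 𝟙_ C, one B ≫ e.hom = biprod.inr

variable {C}

/-- The unital algebra `B` is KK-equivalent to `A ⊕ ℂ` for some `A` with `K_*(A) = 0`, and the class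
of the unit of `B` corresponds to the class of `(0, 1)`.  In particular `K_0(B)` is infinite cyclic
with generator `[1]`, and `K_1(B) = 0`. -/
def KKTheory.LikeOInfty [HasBinaryBiproducts C] (T : KKTheory.{w} C) (B : T.Unital) : Prop :=
  ∃ A : C, T.KZero A ∧ ∃ e : T.obj B ≅ A ⊞ 𝟙_ C, T.one B ≫ e.hom = biprod.inr

end Pool.Agent.TH118.UCT
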