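import Mathlib
import Pool.Agent.TH118.UCT.Def

/-!
# The UCT problem: tensor powers, infinite tensor powers and the size of `KK(A, A)`
-/

namespace Pool.Agent.TH118.UCT

open CategoryTheory Limits MonoidalCategory

universe w v u

variable {C : Type u} [Category.{v} C] [Preadditive C] [MonoidalCategory C]

/-- The maps `id ⊗ χ ⊗ ⋯ ⊗ χ` of the tensor powers of `B` to `B`. -/
def ret {B : C} (e : 𝟙_ C ⟶ B) (χ : B ⟶ 𝟙_ C) : ∀ n : ℕ, pow B n ⟶ B
  | 0 => e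
  | 1 => (λ_ B).hom
  | n + 2 => (pow B (n + 1) ◁ χ) ≫ (ρ_ (pow B (n + 1))).hom ≫ ret e χ (n + 1)

omit [Preadditive C] in
theorem aux_zero {B : C} (e : 𝟙_ C ⟶ B) :
    ((ρ_ (𝟙_ C)).inv ≫ (𝟙_ C ◁ e)) ≫ (λ_ B).hom = e := by
  rw [Category.assoc, leftUnitor_naturality, unitors_equal, Iso.inv_hom_id_assoc]

omit [Preadditive C] in
theorem aux_succ {B : C} (e : 𝟙_ C ⟶ B) (χ : B ⟶ 𝟙_ C) (h : e ≫ χ = 𝟙 _) {X Y : C} (f : X ⟶ Y) :
    ((ρ_ X).inv ≫ (X ◁ e)) ≫ (X ◁ χ) ≫ (ρ_ X).hom ≫ f = f := by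
  have h1 : (X ◁ e) ≫ (X ◁ χ) = 𝟙 _ := by
    rw [← MonoidalCategory.whiskerLeft_comp, h, MonoidalCategory.whiskerLeft_id]
  rw [Category.assoc, reassoc_of% h1, Iso.inv_hom_id_assoc]

theorem step_ret {B : C} (e : 𝟙_ C ⟶ B) (χ : B ⟶ 𝟙_ C) (h : e ≫ χ = 𝟙 _) (n : ℕ) :
    step e n ≫ ret e χ (n + 1) = ret e χ n := by
  cases n with
  | zero => exact aux_zero e
  | succ n => exact aux_succ e χ h (ret e χ (n + 1))

/-- `B` is a direct summand of its `n`-th tensor power, `n ≥ 1`, if the unit splits. -/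
theorem retract_pow {B : C} (e : 𝟙_ C ⟶ B) (χ : B ⟶ 𝟙_ C) (h : e ≫ χ = 𝟙 _) :
    ∀ n : ℕ, ∃ i : B ⟶ pow B (n + 1), i ≫ ret e χ (n + 1) = 𝟙 B
  | 0 => ⟨(λ_ B).inv, (λ_ B).inv_hom_id⟩
  | n + 1 => by
    obtain ⟨i, hi⟩ := retract_pow e χ h n
    exact ⟨i ≫ step e (n + 1), by rw [Category.assoc, step_ret e χ h, hi]⟩

variable [HasBinaryBiproducts C] (T : KKTheory.{w} C)

theorem uct_of_split (B : T.Unital) (χ : T.obj B ⟶ 𝟙_ C) (h : T.one B ≫ χ = 𝟙 _)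
    (hu : T.UCT (T.obj (T.infPow B))) : T.UCT (T.obj B) := by
  obtain ⟨g, hg⟩ := T.milnor B (T.obj B) (ret (T.one B) χ) (step_ret _ χ h)
  obtain ⟨i, hi⟩ := retract_pow (T.one B) χ h 0
  refine T.uct_retract (i ≫ T.ι B 1) g ?_ hu
  rw [Category.assoc, hg 1]
  exact hi

theorem uct_of_infPow (A : C) (B : T.Unital) (e : T.obj B ≅ A ⊞ 𝟙_ C)
    (he : T.one B ≫ e.hom = biprod.inr) (hu : T.UCT (T.obj (T.infPow B))) : T.UCT A := by
  have h1 : T.one B ≫ (e.hom ≫ biprod.snd) = 𝟙 _ := by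
    rw [← Category.assoc, he, biprod.inr_snd]
  refine T.uct_retract (biprod.inl ≫ e.inv) (e.hom ≫ biprod.fst) ?_ (uct_of_split T B _ h1 hu)
  simp

theorem uct_of_pow (A : C) (n : ℕ) (hn : 1 ≤ n) (hu : T.UCT (pow (A ⊞ 𝟙_ C) n)) : T.UCT A := by
  obtain ⟨m, rfl⟩ : ∃ m, n = m + 1 := ⟨n - 1, by omega⟩
  obtain ⟨i, hi⟩ := retract_pow (B := A ⊞ 𝟙_ C) biprod.inr biprod.snd (biprod.inr_snd) m
  have h1 : T.UCT (A ⊞ 𝟙_ C) := T.uct_retract i _ hi hu
  exact T.uct_retract (biprod.inl : A ⟶ A ⊞ 𝟙_ C) biprod.fst (biprod.inl_fst) h1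

/-- If the endomorphisms of the algebras with `K_*(A) = 0` are countable in number then they are
KK-trivial. -/
theorem zero_of_countable (h : ∀ A : C, T.KZero A → Countable (A ⟶ A)) (A : C) (hA : T.KZero A) :
    𝟙 A = 0 := by
  by_contra hne
  obtain ⟨S, ι, hS, hu⟩ := T.exists_sum A
  obtain ⟨r, hr, -⟩ := hu A (fun _ => 𝟙 A)
  have hι : ∀ n, ι n ≠ 0 := by
    intro n h0
    apply hne
    have := hr n
    rw [h0, zero_comp] at this
    exact this.symm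
  classical
  choose g hg _ using fun (ε : Set ℕ) => hu S (fun n => if n ∈ ε then ι n else 0)
  have hinj : Function.Injective g := by
    intro ε ε' hεε
    ext n
    have h1 := hg ε n
    have h2 := hg ε' n
    rw [hεε, h2] at h1
    by_cases ha : n ∈ ε <;> by_cases hb : n ∈ ε' <;> simp only [ha, hb, if_true, if_false] at h1 ⊢
    · exact absurd h1.symm (hι n)
    · exact absurd h1 (hι n)
  have hc : Countable (S ⟶ S) := h S (hS hA)
  have hc2 : Countable (Set ℕ) := hinj.countable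
  obtain ⟨f, hf⟩ := exists_surjective_nat (Set ℕ)
  exact Function.cantor_surjective f hf

/-- If all endomorphism rings of the algebras with `K_*(A) = 0` are Dedekind finite then they are
KK-trivial. -/
theorem zero_of_finite (h : ∀ A : C, T.KZero A → ∀ f g : A ⟶ A, f ≫ g = 𝟙 A → g ≫ f = 𝟙 A)
    (A : C) (hA : T.KZero A) : 𝟙 A = 0 := by
  obtain ⟨S, ι, hS, hu⟩ := T.exists_sum A
  obtain ⟨r, hr, -⟩ := hu A (fun _ => 𝟙 A)
  obtain ⟨s, hs, -⟩ := hu S (fun n => ι (n + 1))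
  obtain ⟨t, ht, -⟩ := hu S (fun n => if n = 0 then 0 else ι (n - 1))
  have hst : s ≫ t = 𝟙 S := by
    obtain ⟨_, -, huniq⟩ := hu S ι
    rw [huniq (s ≫ t) (fun n => ?_), huniq (𝟙 S) (fun n => Category.comp_id _)]
    rw [← Category.assoc, hs n, ht (n + 1)]
    simp
  have hts := h S (hS hA) s t hst
  have h0 : ι 0 = 0 := by
    have h1 : ι 0 ≫ t ≫ s = ι 0 := by rw [hts, Category.comp_id]
    rw [← Category.assoc, ht 0] at h1
    simpa using h1.symm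
  have h2 := hr 0
  rw [h0, zero_comp] at h2
  exact h2.symm

/-- The UCT problem. -/
theorem tfae : List.TFAE
    [∀ A : C, T.UCT A,
     ∀ A : C, ∃ n, 1 ≤ n ∧ T.UCT (pow A n),
     ∀ B : T.Unital, T.Kirchberg B → T.LikeOInfty B → T.UCT (T.obj (T.infPow B)),
     ∀ D : T.Unital, T.Kirchberg D → T.SelfAbsorbing D → T.UCT (T.obj D),
     ∀ A : C, T.KZero A → Countable (A ⟶ A),
     ∀ A : C, T.KZero A → ∀ f g : A ⟶ A, f ≫ g = 𝟙 A → g ≫ f = 𝟙 A] := by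
  have key : (∀ A : C, T.KZero A → 𝟙 A = 0) → ∀ A : C, T.UCT A := fun h =>
    T.reduction fun A hA => T.uct_zero A (h A hA)
  have zero : (∀ A : C, T.UCT A) → ∀ A : C, T.KZero A → ∀ f g : A ⟶ A, f = g := by
    intro h A hA f g
    have h1 := T.eq_zero A hA (h A)
    rw [← Category.comp_id f, ← Category.comp_id g, h1, comp_zero, comp_zero]
  tfae_have 1 → 2 := fun h A => ⟨1, le_rfl, h _⟩
  tfae_have 2 → 1 := by
    intro h A
    obtain ⟨n, hn, hu⟩ := h (A ⊞ 𝟙_ C)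
    exact uct_of_pow T A n hn hu
  tfae_have 1 → 3 := fun h B _ _ => h _
  tfae_have 3 → 1 := by
    intro h
    refine T.reduction fun A hA => ?_
    obtain ⟨B, hB, e, he⟩ := T.exists_kirchberg A
    exact uct_of_infPow T A B e he (h B hB ⟨A, hA, e, he⟩)
  tfae_have 1 → 4 := fun h D _ _ => h _
  tfae_have 4 → 3 := fun h B hB _ => h _ (T.kirchberg_infPow B hB) (T.selfAbsorbing_infPow B)
  tfae_have 1 → 5 := fun h A hA => by
    have : Subsingleton (A ⟶ A) := ⟨zero h A hA⟩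
    infer_instance
  tfae_have 5 → 1 := fun h => key (zero_of_countable T h)
  tfae_have 1 → 6 := fun h A hA f g _ => zero h A hA _ _
  tfae_have 6 → 1 := fun h => key (zero_of_finite T h)
  tfae_finish

omit [HasBinaryBiproducts C] in
theorem isIso_of_split [MonoidalPreadditive C] {B : C} (u : 𝟙_ C ⟶ B) (h : IsIso (B ◁ u))
    (χ : B ⟶ 𝟙_ C) (hχ : u ≫ χ = 𝟙 _) : χ ≫ u = 𝟙 B := by
  have he0 : u ≫ (𝟙 B - χ ≫ u) = 0 := by
    rw [Preadditive.comp_sub, Category.comp_id, ← Category.assoc, hχ, Category.id_comp, sub_self]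
  have h1 : B ◁ (𝟙 B - χ ≫ u) = 0 := by
    rw [← cancel_epi (B ◁ u), ← MonoidalCategory.whiskerLeft_comp, he0,
      MonoidalPreadditive.whiskerLeft_zero, comp_zero]
  have h2 : 𝟙_ C ◁ (𝟙 B - χ ≫ u) = 0 := by
    have h3 : 𝟙_ C ◁ (𝟙 B - χ ≫ u) ≫ (u ▷ B) = 0 := by
      rw [whisker_exchange, h1, comp_zero]
    have h4 : (u ▷ B) ≫ (χ ▷ B) = 𝟙 _ := by
      rw [← comp_whiskerRight, hχ, id_whiskerRight]
    calc 𝟙_ C ◁ (𝟙 B - χ ≫ u) = 𝟙_ C ◁ (𝟙 B - χ ≫ u) ≫ (u ▷ B) ≫ (χ ▷ B) := by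
          rw [h4, Category.comp_id]
      _ = 0 := by rw [← Category.assoc, h3, zero_comp]
  have h5 : 𝟙 B - χ ≫ u = 0 := by
    have h6 := leftUnitor_naturality (𝟙 B - χ ≫ u)
    rw [h2, zero_comp] at h6
    exact ((cancel_epi (λ_ B).hom).1 (by rw [← h6, comp_zero]))
  exact (sub_eq_zero.1 h5).symm

/-- Self-absorbing algebras with split unit. -/
theorem isIso_one [MonoidalPreadditive C] (D : T.Unital) (h : IsIso (T.obj D ◁ T.one D))
    (χ : T.obj D ⟶ 𝟙_ C) (hχ : T.one D ≫ χ = 𝟙 _) :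
    IsIso (T.one D) ∧ T.UCT (T.obj D) := by
  have h7 := isIso_of_split (T.one D) h χ hχ
  exact ⟨⟨χ, hχ, h7⟩, T.uct_retract χ (T.one D) h7 T.uct_unit⟩

end Pool.Agent.TH118.UCT
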